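import Pool.Agent.T2H18.FF.Bruck
import Pool.Agent.T2H18.FF.Core

/-!
# Families of symmetric designs nested by divisibility

Let `A_m`, `B_m` (`m ≥ 1`) be finite sets of points and blocks of one incidence structure, with
`A_m ⊆ A_{mj}`, `B_m ⊆ B_{mj}`: for instance the points and blocks fixed by the powers `σ^m` of a
permutation, or the points over the field with `q^m` elements of two varieties which are defined over
the field with `q` elements. If all of them are symmetric designs with the same `λ ≥ 2` and the numbers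
`|A_m|` have the form `∑ c_i α_i^m` with integers `c_i` (that is, their zeta function
`exp (∑ |A_m| T^m / m)` is rational), then `|A_m|` is bounded.

For `λ = 1` this is false (`PG(2, q^m)`).

Method. Let `D₀ ⊆ D` be symmetric designs with the same `λ`, with `v₀ < v` points and blocks of sizes
`k₀` and `k`. Through a point of `D` not in `D₀` on a block of `D₀` there are `λ v₀ - k₀` other blocks
which meet `D₀` in one point, so `k + k₀ ≥ λ v₀ + 1`. Hence, with `v_m = |A_m|`, either
`v_{2m} = v_m` or `λ v_{2m} ≥ (λ v_m)^2 (1 - o(1))`. Let `R` be the largest `|α_i|`; after passing to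
multiples of some `N` no quotient of two of the `α_i` is a root of unity. If `R > 1`, the means of
`v_{2m} / R^(2m)` and of `(v_m / R^m)^2` are `c` and `∑ c_i^2`, where `c` is zero or one of the `c_i`;
and `v_{2m} = v_m` only for a set of `m` of density zero. So `c ≥ λ ∑ c_i^2`, a contradiction.
-/

set_option autoImplicit false

namespace Pool.Agent.Results.MP_c38931_co.FrobeniusFamilies

open Filter Topology

/-- The set `A` of points and the set `B` of blocks of the incidence structure `I` form a symmetric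
`2-(v, k, lam)` design with `v = |A| = |B|` and `2 ≤ k ≤ v - 1`. -/
def IsSymmetricDesign {X Y : Type} (I : X → Y → Prop) (lam : ℕ) (A : Set X) (B : Set Y) : Prop :=
  A.Finite ∧ B.Finite ∧ B.ncard = A.ncard ∧
  ∃ k : ℕ, 2 ≤ k ∧ k + 1 ≤ A.ncard ∧ (∀ y ∈ B, {x | x ∈ A ∧ I x y}.ncard = k) ∧
    ∀ x ∈ A, ∀ x' ∈ A, x ≠ x' → {y | y ∈ B ∧ I x y ∧ I x' y}.ncard = lam

open scoped Classical in
theorem des_of {X Y : Type} {I : X → Y → Prop} {lam : ℕ} {A : Set X} {B : Set Y}
    (h : IsSymmetricDesign I lam A B) : ∃ (k : ℕ) (A' : Finset X) (B' : Finset Y),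
      (A' : Set X) = A ∧ (B' : Set Y) = B ∧ Pool.Agent.T2H18.FF.Des I lam k A' B' := by
  obtain ⟨hA, hB, hAB, k, hk, hkv, hb, hp⟩ := h
  have eA : (hA.toFinset : Set X) = A := hA.coe_toFinset
  have eB : (hB.toFinset : Set Y) = B := hB.coe_toFinset
  have cA : A.ncard = hA.toFinset.card := Set.ncard_eq_toFinset_card A hA
  have cB : B.ncard = hB.toFinset.card := Set.ncard_eq_toFinset_card B hB
  refine ⟨k, hA.toFinset, hB.toFinset, eA, eB, ?_, hk, ?_, ?_, ?_⟩
  · rw [← cA, ← cB, hAB]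
  · rw [← cA]; omega
  · intro y hy
    rw [← hb y (by simpa using hy), ← Set.ncard_coe_finset]
    congr 1
    ext x
    simp
  · intro x hx x' hx' hne
    rw [← hp x (by simpa using hx) x' (by simpa using hx') hne, ← Set.ncard_coe_finset]
    congr 1
    ext y
    simp

/-- **Families of symmetric designs nested by divisibility.** Let `A m`, `B m` (`m ≥ 1`) be sets of
points and blocks of one incidence structure with `A m ⊆ A (m * j)` and `B m ⊆ B (m * j)`, which form
symmetric designs with the same `lam ≥ 2`.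

(1) If `|A m| = ∑ c_i α_i ^ m` for all `m ≥ 1`, with integers `c_i` and complex numbers `α_i`, then
`|A m|` is bounded.

(2) If `|A m| ≤ C R ^ m` for all `m ≥ 1`, with `R > 1`, and `|A (2 m)| ≠ |A m|` for all large `m`,
then the upper limit of `|A m| / R ^ m` is at most `1 / lam`. -/
theorem result (lam : ℕ) (hlam : 2 ≤ lam) (X Y : Type) (I : X → Y → Prop) (A : ℕ → Set X)
    (B : ℕ → Set Y)
    (hn : ∀ m j : ℕ, 1 ≤ m → 1 ≤ j → A m ⊆ A (m * j) ∧ B m ⊆ B (m * j))
    (hD : ∀ m : ℕ, 1 ≤ m → IsSymmetricDesign I lam (A m) (B m)) :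
    (∀ (r : ℕ) (c : Fin r → ℤ) (α : Fin r → ℂ),
      (∀ m : ℕ, 1 ≤ m → ((A m).ncard : ℂ) = ∑ i, (c i : ℂ) * α i ^ m) →
      ∃ K : ℕ, ∀ m : ℕ, 1 ≤ m → (A m).ncard ≤ K) ∧
    ∀ C R : ℝ, 1 < R → (∀ m : ℕ, 1 ≤ m → ((A m).ncard : ℝ) ≤ C * R ^ m) →
      (∀ᶠ m : ℕ in atTop, (A (m * 2)).ncard ≠ (A m).ncard) →
      ∀ ε : ℝ, 0 < ε → ∀ᶠ m : ℕ in atTop, (lam : ℝ) * (A m).ncard ≤ (1 + ε) * R ^ m := by
  classical
  obtain ⟨v, hv⟩ : ∃ v : ℕ → ℕ, v = fun m => (A m).ncard := ⟨_, rfl⟩
  have hvm : ∀ m, (A m).ncard = v m := fun m => by rw [hv]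
  have hmono : ∀ m j, 1 ≤ m → 1 ≤ j → v m ≤ v (m * j) := by
    intro m j hm hj
    rw [← hvm, ← hvm]
    exact Set.ncard_le_ncard (hn m j hm hj).1 (hD (m * j) (Nat.mul_pos hm hj)).1
  have hd : Pool.Agent.T2H18.FF.Dbl lam v := by
    intro m hm
    obtain ⟨k, A', B', hA, hB, h⟩ := des_of (hD (m * 2) (by omega))
    obtain ⟨k₀, A₀, B₀, hA₀, hB₀, h₀⟩ := des_of (hD m hm)
    have h1 := Pool.Agent.T2H18.FF.bruck_sqrt h h₀
      (Finset.coe_subset.1 (by rw [hA₀, hA]; exact (hn m 2 hm (by norm_num)).1))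
      (Finset.coe_subset.1 (by rw [hB₀, hB]; exact (hn m 2 hm (by norm_num)).2))
    rw [← Set.ncard_coe_finset, ← Set.ncard_coe_finset, hA, hA₀, hvm, hvm] at h1
    exact h1
  refine ⟨fun r c α hz => ?_, fun C R hR hC hp ε hε => ?_⟩
  · obtain ⟨K, hK⟩ := Pool.Agent.T2H18.FF.core hlam hmono hd _ 1 le_rfl
      (Finset.univ.image α) rfl (fun a => ∑ i with α i = a, c i) (fun m hm => by
        rw [one_mul, ← hvm, hz m hm, ← Finset.sum_fiberwise_of_maps_to (g := α)
          (fun i _ => Finset.mem_image_of_mem _ (Finset.mem_univ i))]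
        refine Finset.sum_congr rfl fun b _ => ?_
        push_cast
        rw [Finset.sum_mul]
        refine Finset.sum_congr rfl fun i hi => ?_
        rw [(Finset.mem_filter.1 hi).2])
    refine ⟨K, fun m hm => ?_⟩
    have := hK m hm
    rwa [one_mul, ← hvm] at this
  · simp only [hvm] at hC hp ⊢
    exact Pool.Agent.T2H18.FF.growth (by omega) hd hp hR hC hε

end Pool.Agent.Results.MP_c38931_co.FrobeniusFamilies
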