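import Pool.Agent.T2H18.FF.Bruck
import Pool.Agent.T2H18.GS.Aut
import Pool.Agent.T2H18.GS.Sub

/-!
# Closed substructures of symmetric designs with `λ ≥ 2`

Let `λ ≥ 2`. Call a set `P` of points with a set `Q` of blocks of a symmetric `2-(v, k, λ)` design `D`
closed if it contains all blocks through two of its points and all common points of two of its
blocks. We show:

* A closed substructure with at least two points is a symmetric design with the same `λ` (this is
  false for `λ = 1`), and if it is proper and has block size `k₀` then `k ≥ (k₀ - 1) ^ 2 + λ`.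
* Let `κ_0 = λ`, `κ_(n+1) = (κ_n - 1) ^ 2 + λ`. If any `n + 2` points, two of which lie on a given
  block, are contained in a closed substructure with block size at most `K < κ_(2n)`, then `k ≤ K`.
  (For `λ = 1` any four points of `PG(2, 2 ^ r)` in general position generate a subplane with seven
  points.)
* If `k < κ_(2n+1)` then `n + 2` points generate `D`, every group of automorphisms whose order is
  prime to `λ!` has order at most `v ^ (n + 2)`, and there are at most `v ^ (n + 2)` closed
  substructures. Here `κ_(2n+1) > 2 ^ 2 ^ (2n)`, so `n + 2` can be replaced by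
  `(log log k) / 2 + 3`, logarithms to base 2.

The main point is that the two further points `a`, `b` of a block `B` through `p` and `q` are
generated by `p`, `q` and ONE point outside `B`, so that `n + 2` points generate `2n + 2` arbitrary
points of a block, and a chain of closed substructures grows doubly exponentially.
-/

set_option autoImplicit false

namespace Pool.Agent.Results.MP_c38931_co.GeneratedSubdesigns

open Finset

/-- The blocks `B i` (`i : Fin v`) form a symmetric `2-(v, k, lam)` design on the points `Fin v`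
with `2 ≤ k < v`. -/
structure IsSymmetricDesign (v k lam : ℕ) (B : Fin v → Finset (Fin v)) : Prop where
  two_le : 2 ≤ k
  lt : k < v
  size : ∀ i, (B i).card = k
  pair : ∀ x y : Fin v, x ≠ y →
    (Finset.univ.filter (fun i => x ∈ B i ∧ y ∈ B i)).card = lam

/-- The points in `P` and the blocks with index in `Q` form a closed substructure: all blocks
through two points of `P` are in `Q`, all common points of two blocks of `Q` are in `P`. -/
structure IsClosed {v : ℕ} (B : Fin v → Finset (Fin v)) (P Q : Finset (Fin v)) : Prop where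
  blocks : ∀ x ∈ P, ∀ y ∈ P, x ≠ y → ∀ i, x ∈ B i → y ∈ B i → i ∈ Q
  points : ∀ i ∈ Q, ∀ j ∈ Q, i ≠ j → B i ∩ B j ⊆ P

/-- `kappa lam 0 = lam`, `kappa lam (n + 1) = (kappa lam n - 1) ^ 2 + lam`. -/
def kappa (lam : ℕ) : ℕ → ℕ
  | 0 => lam
  | n + 1 => (kappa lam n - 1) ^ 2 + lam

lemma kap_eq (lam n : ℕ) : Pool.Agent.T2H18.GS.kap lam n = kappa lam n := by
  induction n with
  | zero => rfl
  | succ n ih =>
    show (Pool.Agent.T2H18.GS.kap lam n - 1) ^ 2 + lam = _
    rw [ih]
    rfl

open Pool.Agent.T2H18.GS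

lemma op_iff {v : ℕ} {B : Fin v → Finset (Fin v)} {P Q : Finset (Fin v)} :
    Op (inc B) P Q ↔ IsClosed B P Q := by
  constructor
  · intro h
    refine ⟨h.pts, fun i hi j hj hne x hx => ?_⟩
    rw [mem_inter] at hx
    exact h.blk i hi j hj hne x hx.1 hx.2
  · intro h
    refine ⟨h.blocks, fun i hi j hj hne x hx1 hx2 => ?_⟩
    exact h.points i hi j hj hne (mem_inter.2 ⟨hx1, hx2⟩)

lemma cl_of {v k lam : ℕ} {B : Fin v → Finset (Fin v)} (h : IsSymmetricDesign v k lam B) :
    Cl (inc B) lam univ univ := by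
  classical
  have hv := h.two_le.trans h.lt.le
  have hD : Pool.Agent.T2H18.FF.Des (inc B) lam k univ univ := by
    refine ⟨rfl, h.two_le, by rw [Finset.card_univ, Fintype.card_fin]; exact h.lt, ?_, ?_⟩
    · intro i _
      rw [← h.size i]
      congr 1
      ext x
      simp [inc]
    · intro x _ x' _ hne
      rw [← h.pair x x' hne]
      congr 1
      ext i
      simp [inc]
  refine ⟨by rw [Finset.card_univ, Fintype.card_fin]; exact hv, ?_, ?_⟩
  · intro x hx x' hx' hne
    exact hD.pair x hx x' hx' hne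
  · intro i hi j hj hne
    exact hD.meet hi hj hne

lemma sz_inc {v : ℕ} {B : Fin v → Finset (Fin v)} (P : Finset (Fin v)) (i : Fin v) :
    sz (inc B) P i = (B i ∩ P).card := by
  classical
  unfold sz
  congr 1
  ext x
  simp [inc, and_comm]

lemma sz_univ {v k lam : ℕ} {B : Fin v → Finset (Fin v)} (h : IsSymmetricDesign v k lam B)
    (i : Fin v) : sz (inc B) univ i = k := by
  rw [sz_inc, Finset.inter_univ, h.size]

/-- **Closed substructures of symmetric designs.** Let `lam ≥ 2`, and let `B` be a symmetric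
`2-(v, k, lam)` design. -/
theorem result (lam : ℕ) (hlam : 2 ≤ lam) (v k : ℕ) (B : Fin v → Finset (Fin v))
    (hB : IsSymmetricDesign v k lam B) :
    -- (1) closed substructures are symmetric designs with the same `lam`, and they grow fast
    (∀ P Q : Finset (Fin v), IsClosed B P Q → 2 ≤ P.card → ∃ k₀ : ℕ, lam ≤ k₀ ∧
      Q.card = P.card ∧ (∀ i ∈ Q, (B i ∩ P).card = k₀) ∧
      (∀ x ∈ P, (Q.filter fun i => x ∈ B i).card = k₀) ∧
      k₀ * (k₀ - 1) = lam * (P.card - 1) ∧ (P = univ ∨ (k₀ - 1) ^ 2 + lam ≤ k)) ∧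
    -- (2) if few points generate only small substructures then the design is small
    (∀ n K : ℕ, K < kappa lam (2 * n) →
      (∃ i : Fin v, ∀ S : Finset (Fin v), S.card ≤ n + 2 → 2 ≤ (S ∩ B i).card →
        ∃ P Q : Finset (Fin v), IsClosed B P Q ∧ S ⊆ P ∧ ∀ j ∈ Q, (B j ∩ P).card ≤ K) →
      k ≤ K) ∧
    -- (3) few generators, small groups of automorphisms, few closed substructures
    (∀ n : ℕ, k < kappa lam (2 * n + 1) →
      (∃ S : Finset (Fin v), S.card ≤ n + 2 ∧
        ∀ P Q : Finset (Fin v), IsClosed B P Q → S ⊆ P → P = univ) ∧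
      (∀ G : Subgroup (Equiv.Perm (Fin v)), (∀ g ∈ G, ∀ i, ∃ j, (B i).image g = B j) →
        Nat.Coprime (Nat.card G) lam.factorial → Nat.card G ≤ v ^ (n + 2)) ∧
      {P : Finset (Fin v) | 2 ≤ P.card ∧ ∃ Q, IsClosed B P Q}.ncard ≤ v ^ (n + 2)) ∧
    -- (4) the size of `kappa`
    (∀ n : ℕ, 2 ^ 2 ^ n < kappa lam (n + 1)) := by
  classical
  have hD := cl_of hB
  have hv : 2 ≤ v := hB.two_le.trans hB.lt.le
  refine ⟨?_, ?_, ?_, ?_⟩
  · intro P Q hPQ h2
    have c := (op_iff.2 hPQ).cl hD h2
    obtain ⟨k₀, h1, h3, h4, h5, h6⟩ := c.exists_k hlam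
    refine ⟨k₀, h1, h5, fun i hi => ?_, fun x hx => ?_, ?_, ?_⟩
    · rw [← sz_inc]
      exact h4 i hi
    · rw [← h3 x hx]
      unfold dg
      congr 1
      ext i
      simp [inc]
    · have e1 : ((k₀ * (k₀ - 1) : ℕ) : ℤ) = ((lam * (P.card - 1) : ℕ) : ℤ) := by
        rw [Nat.cast_mul, Nat.cast_mul, Nat.cast_sub (by omega), Nat.cast_sub (by omega)]
        exact_mod_cast h6
      exact_mod_cast e1
    · by_cases hP : P = univ
      · exact Or.inl hP
      · right
        exact growth hlam hD c (Finset.ssubset_univ_iff.2 hP) (Finset.subset_univ _)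
          (fun y _ => sz_univ hB y) h4
  · rintro n K hK ⟨i, hi⟩
    rw [← sz_univ hB i]
    refine small hD hlam n K (by rw [kap_eq]; exact hK) i ?_
    intro S hS2 hS
    obtain ⟨P, Q, h1, h2, h3⟩ := hi S hS (by
      refine hS2.trans (Finset.card_le_card fun x hx => ?_)
      rw [mem_filter] at hx
      exact mem_inter.2 hx)
    refine ⟨P, Q, op_iff.2 h1, h2, fun j hj => ?_⟩
    rw [sz_inc]
    exact h3 j hj
  · intro n hk
    have hk' : ∀ y, sz (inc B) univ y < kap lam (2 * n + 1) := by
      intro y
      rw [sz_univ hB, kap_eq]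
      exact hk
    obtain ⟨S, hS, hgen⟩ := gen hD hlam n ⟨⟨0, by omega⟩, hk' _⟩
    refine ⟨⟨S, hS, fun P Q hPQ hSP => hgen P Q (op_iff.2 hPQ) hSP⟩, ?_, ?_⟩
    · intro G hG hco
      exact card_aut hD hS hgen G hG hco
    · have h1 := card_closed hD hlam n hk'
      rw [Fintype.card_fin] at h1
      have e : {P : Finset (Fin v) | 2 ≤ P.card ∧ ∃ Q, IsClosed B P Q} =
          {P : Finset (Fin v) | 2 ≤ P.card ∧ ∃ Q, Op (inc B) P Q} := by
        ext P
        simp only [Set.mem_setOf_eq, op_iff]
      rw [e]
      exact h1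
  · intro n
    have := two_pow_le_kap hlam n
    rw [kap_eq] at this
    omega

end Pool.Agent.Results.MP_c38931_co.GeneratedSubdesigns
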