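import Mathlib
import Pool.Agent.T2H18.PO.Hall

set_option autoImplicit false

/-!
# Fixed `lam`: symmetric designs whose order `k - lam` is a value of a polynomial
-/

namespace Pool.Agent.Results.MP_c38931_co.PolynomialOrders

open Filter Topology Polynomial

/-- The blocks `B i` (`i : Fin v`) form a symmetric `2-(v, k, lam)` design on the points `Fin v`
with `2 ≤ k < v`. -/
structure IsSymmetricDesign (v k lam : ℕ) (B : Fin v → Finset (Fin v)) : Prop where
  two_le : 2 ≤ k
  lt : k < v
  size : ∀ i, (B i).card = k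
  pair : ∀ x y : Fin v, x ≠ y →
    (Finset.univ.filter (fun i => x ∈ B i ∧ y ∈ B i)).card = lam

/-- The permutation `σ` of the points maps every block to a block. -/
def IsAutomorphism {v : ℕ} (B : Fin v → Finset (Fin v)) (σ : Equiv.Perm (Fin v)) : Prop :=
  ∀ i, ∃ j, (B i).image σ = B j

/-- For every prime divisor `q > T` of `v` some automorphism whose order is a power of `q` fixes an
even number of points. -/
def EvenFixed (T v : ℕ) (B : Fin v → Finset (Fin v)) : Prop :=
  ∀ q : ℕ, q.Prime → T < q → q ∣ v → ∃ (σ : Equiv.Perm (Fin v)) (a : ℕ),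
    IsAutomorphism B σ ∧ orderOf σ = q ^ a ∧
      Even (Finset.univ.filter (fun x : Fin v => σ x = x)).card

/-- `H` has at most `T` orbits on the points, and all point stabilizers have order at most `T`. -/
def HasFewOrbits (T v : ℕ) (H : Subgroup (Equiv.Perm (Fin v))) : Prop :=
  Nat.card (MulAction.orbitRel.Quotient H (Fin v)) ≤ T ∧
    ∀ x : Fin v, Nat.card (MulAction.stabilizer H x) ≤ T

/-- `H` is transitive on the points, and no prime `q > T` divides both `v` and the order of a point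
stabilizer. -/
def TransitiveCoprime (T v : ℕ) (H : Subgroup (Equiv.Perm (Fin v))) : Prop :=
  (∀ x y : Fin v, ∃ h ∈ H, h x = y) ∧
    ∀ q : ℕ, q.Prime → q ∣ v → ∀ x : Fin v, q ∣ Nat.card (MulAction.stabilizer H x) → q ≤ T

/-- The orders `n = k - lam` of the symmetric `2-(v, k, lam)` designs (`v` arbitrary) with
`EvenFixed T` or with a group of automorphisms `H` with `HasFewOrbits T` or `TransitiveCoprime T`. -/
def orders (lam T : ℕ) : Set ℕ :=
  {n : ℕ | ∃ (v : ℕ) (B : Fin v → Finset (Fin v)), IsSymmetricDesign v (n + lam) lam B ∧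
    (EvenFixed T v B ∨ ∃ H : Subgroup (Equiv.Perm (Fin v)), (∀ h ∈ H, IsAutomorphism B h) ∧
      (HasFewOrbits T v H ∨ TransitiveCoprime T v H))}

theorem sub_blk (lam T n : ℕ) (hn : n ∈ orders lam T) :
    n + lam ∈ Pool.Agent.R116.Hall.blk (T * T.factorial) lam := by
  obtain ⟨v, B, hd, h⟩ := hn
  have hv : 2 ≤ v := by
    have h1 := hd.two_le
    have h2 := hd.lt
    omega
  have ht : T ≤ T * T.factorial := Nat.le_mul_of_pos_right _ (Nat.factorial_pos T)
  refine ⟨v, B, ⟨hd.two_le, hd.lt, hd.size, hd.pair⟩, ?_⟩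
  rcases h with h | ⟨H, haut, h | h⟩
  · refine Pool.Agent.R116.Hall.Ev.mono (s := T) ?_ ht
    intro q hq htq hqv
    obtain ⟨σ, a, h1, h2, h3⟩ := h q hq htq hqv
    exact ⟨σ, a, h1, by rw [← h2]; exact pow_orderOf_eq_one σ, h3⟩
  · exact Pool.Agent.R116.Hall.ev_few hv H haut h.1 h.2
  · exact (Pool.Agent.R116.Hall.ev_trans H haut h.1 h.2).mono ht

/-- Let `lam ≥ 1` and `T` be given, and let `f` be a nonconstant polynomial with integer coefficients
which is not the square of a polynomial with rational coefficients.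

(1) The integers `t ≥ 0` with `f(t) ∈ orders lam T` have density zero.

(2) The primes `p` with `f(p) ∈ orders lam T` have relative density zero among the primes, unless
`lam = 1` and `f` is a power `X ^ k`. (If `lam = 1`, `T ≥ 1` and `f = X ^ k`, then all `f(p)` lie in
`orders lam T`, by the Desarguesian projective planes.) -/
theorem result (lam T : ℕ) (hlam : 1 ≤ lam) (f : ℤ[X]) (hf : 0 < f.natDegree)
    (hsq : ¬ ∃ g : ℚ[X], f.map (Int.castRingHom ℚ) = g ^ 2) :
    Tendsto (fun N : ℕ =>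
      ({t : ℕ | t < N ∧ ∃ n ∈ orders lam T, f.eval (t : ℤ) = n}.ncard : ℝ) / N) atTop (𝓝 0) ∧
    ((lam = 1 → ∀ k : ℕ, f ≠ X ^ k) →
      Tendsto (fun N : ℕ =>
        ({p : ℕ | p ≤ N ∧ p.Prime ∧ ∃ n ∈ orders lam T, f.eval (p : ℤ) = n}.ncard : ℝ) /
          ({p : ℕ | p ≤ N ∧ p.Prime}.ncard : ℝ)) atTop (𝓝 0)) := by
  classical
  have hS : ∀ t : ℕ, (∃ n ∈ orders lam T, f.eval (t : ℤ) = n) → ∃ n : ℕ, f.eval (t : ℤ) = n ∧
      n + lam ∈ Pool.Agent.R116.Hall.blk (T * T.factorial) lam := by
    rintro t ⟨n, h1, h2⟩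
    exact ⟨n, h2, sub_blk lam T n h1⟩
  obtain ⟨h1, h2⟩ := Pool.Agent.T2H18.PO.hall_main hf hsq hlam _ _ hS
  constructor
  · refine h1.congr fun N => ?_
    have h3 : {t : ℕ | t < N ∧ ∃ n ∈ orders lam T, f.eval (t : ℤ) = n} =
        ((Finset.range N).filter (fun t : ℕ => ∃ n ∈ orders lam T, f.eval (t : ℤ) = n) :
          Finset ℕ) := by
      ext t
      simp only [Finset.coe_filter, Finset.mem_range, Set.mem_ofPred_eq]
    rw [h3, Set.ncard_coe_finset]
    unfold Pool.Agent.H771R2.Dens.cnt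
    congr
  · intro hk
    refine (Pool.Agent.T2H18.PO.PZ.tendsto (h2 hk)).congr fun N => ?_
    have h3 : {p : ℕ | p ≤ N ∧ p.Prime}.ncard = Nat.primeCounting N := by
      have h4 : {p : ℕ | p ≤ N ∧ p.Prime} =
          ((Finset.range (N + 1)).filter (fun p => p.Prime) : Finset ℕ) := by
        ext p
        simp only [Finset.coe_filter, Finset.mem_range, Set.mem_ofPred_eq, Nat.lt_succ_iff]
      rw [h4, Set.ncard_coe_finset, Nat.primeCounting, Nat.primeCounting',
        Nat.count_eq_card_filter_range]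
    rw [h3]

end Pool.Agent.Results.MP_c38931_co.PolynomialOrders
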