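import Mathlib
import Pool.Agent.T2H18.PO.MainB
import Pool.Agent.T2H18.PO.Singer

set_option autoImplicit false

/-!
# Fixed `lam`: all symmetric designs whose order `k - lam` is a value of a polynomial
-/

namespace Pool.Agent.Results.MP_c38931_co.PolynomialOrdersBRC

open Filter Topology Polynomial

/-- The blocks `B i` (`i : Fin v`) form a symmetric `2-(v, k, lam)` design on the points `Fin v`
with `2 ≤ k < v`. -/
structure IsSymmetricDesign (v k lam : ℕ) (B : Fin v → Finset (Fin v)) : Prop where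
  two_le : 2 ≤ k
  lt : k < v
  size : ∀ i, (B i).card = k
  pair : ∀ x y : Fin v, x ≠ y →
    (Finset.univ.filter (fun i => x ∈ B i ∧ y ∈ B i)).card = lam

/-- `n = k - lam` is the order of some symmetric `2-(v, k, lam)` design with `v ≡ r (mod 4)`. -/
def IsOrder (lam r n : ℕ) : Prop :=
  ∃ (v : ℕ) (B : Fin v → Finset (Fin v)), v % 4 = r ∧ IsSymmetricDesign v (n + lam) lam B

/-- `P` is an irreducible factor of `f` over the rationals, of odd multiplicity, such that `d` is not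
a square in the field `ℚ[X] / (P)`. -/
def IsGoodFactor (f : ℤ[X]) (d : ℤ) (P : ℚ[X]) : Prop :=
  Irreducible P ∧
  (∃ (H : ℚ[X]) (e : ℕ), Odd e ∧ f.map (Int.castRingHom ℚ) = P ^ e * H ∧ ¬ P ∣ H) ∧
  ¬ IsSquare ((d : ℤ) : AdjoinRoot P)

/-- The proportion of the integers `0 ≤ t < N` with the property `S` tends to `0`. -/
def DensityZero (S : ℕ → Prop) : Prop :=
  Tendsto (fun N : ℕ => ({t : ℕ | t < N ∧ S t}.ncard : ℝ) / N) atTop (𝓝 0)

/-- The proportion of the primes `p ≤ N` with the property `S` tends to `0`. -/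
def PrimeDensityZero (S : ℕ → Prop) : Prop :=
  Tendsto (fun N : ℕ => ({p : ℕ | p ≤ N ∧ p.Prime ∧ S p}.ncard : ℝ) /
    ({p : ℕ | p ≤ N ∧ p.Prime}.ncard : ℝ)) atTop (𝓝 0)

theorem dens_of {S : ℕ → Prop}
    (h : Tendsto (fun N : ℕ => (Pool.Agent.H771R2.Dens.cnt S N : ℝ) / N) atTop (𝓝 0)) :
    DensityZero S := by
  classical
  refine h.congr fun N => ?_
  have h3 : {t : ℕ | t < N ∧ S t} = ((Finset.range N).filter (fun t : ℕ => S t) : Finset ℕ) := by
    ext t
    simp only [Finset.coe_filter, Finset.mem_range, Set.mem_ofPred_eq]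
  rw [h3, Set.ncard_coe_finset]
  unfold Pool.Agent.H771R2.Dens.cnt
  congr

theorem prime_of {S : ℕ → Prop} (h : Pool.Agent.T2H18.PO.PZ S) : PrimeDensityZero S := by
  refine h.tendsto.congr fun N => ?_
  have h3 : {p : ℕ | p ≤ N ∧ p.Prime}.ncard = Nat.primeCounting N := by
    have h4 : {p : ℕ | p ≤ N ∧ p.Prime} =
        ((Finset.range (N + 1)).filter (fun p => p.Prime) : Finset ℕ) := by
      ext p
      simp only [Finset.coe_filter, Finset.mem_range, Set.mem_ofPred_eq, Nat.lt_succ_iff]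
    rw [h4, Set.ncard_coe_finset, Nat.primeCounting, Nat.primeCounting',
      Nat.count_eq_card_filter_range]
  rw [h3]

/-- Let `lam ≥ 1` and let `f` be a polynomial with integer coefficients which is not the square of a
polynomial with rational coefficients. No automorphisms are assumed.

(1) Let `r < 4`; if `r = 1` assume that `f` has a good factor for `d = lam`, if `r = 3` assume that
`f` has a good factor for `d = -lam`. Then the integers `t ≥ 0` such that `f(t)` is the order `k - lam`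
of a symmetric `2-(v, k, lam)` design with `v ≡ r (mod 4)` have density zero.

(2) The same holds for primes, with relative density zero among the primes, if the factors `P` have
`P(0) ≠ 0`.

(3) If `lam` is not a perfect square and `f` has odd degree, then the integers `t ≥ 0` such that `f(t)`
is the order of any symmetric `2-(v, k, lam)` design have density zero; if moreover `f(0) ≠ 0`, the
primes `p` such that `f(p)` is the order of such a design have relative density zero. -/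
theorem result (lam : ℕ) (hlam : 1 ≤ lam) (f : ℤ[X])
    (hsq : ¬ ∃ g : ℚ[X], f.map (Int.castRingHom ℚ) = g ^ 2) :
    (∀ r < 4, (r = 1 → ∃ P, IsGoodFactor f lam P) → (r = 3 → ∃ P, IsGoodFactor f (-lam) P) →
      DensityZero (fun t => ∃ n : ℕ, f.eval (t : ℤ) = n ∧ IsOrder lam r n)) ∧
    (∀ r < 4, (r = 1 → ∃ P, IsGoodFactor f lam P ∧ P.eval 0 ≠ 0) →
      (r = 3 → ∃ P, IsGoodFactor f (-lam) P ∧ P.eval 0 ≠ 0) →
      PrimeDensityZero (fun p => ∃ n : ℕ, f.eval (p : ℤ) = n ∧ IsOrder lam r n)) ∧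
    (¬ IsSquare lam → Odd f.natDegree →
      DensityZero (fun t => ∃ n r : ℕ, f.eval (t : ℤ) = n ∧ IsOrder lam r n) ∧
      (f.eval 0 ≠ 0 →
        PrimeDensityZero (fun p => ∃ n r : ℕ, f.eval (p : ℤ) = n ∧ IsOrder lam r n))) := by
  classical
  have hf0 : f ≠ 0 := by
    rintro rfl
    exact hsq ⟨0, by simp⟩
  have hS : ∀ r t : ℕ, (∃ n : ℕ, f.eval (t : ℤ) = n ∧ IsOrder lam r n) →
      ∃ n : ℕ, f.eval (t : ℤ) = n ∧ ∃ (v : ℕ) (B : Fin v → Finset (Fin v)),
        Pool.Agent.R116.Hall.SD v (n + lam) lam B ∧ v % 4 = r := by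
    rintro r t ⟨n, h1, v, B, h2, h3⟩
    exact ⟨n, h1, v, B, ⟨h3.two_le, h3.lt, h3.size, h3.pair⟩, h2⟩
  have key := fun (r : ℕ) (hr : r < 4) =>
    Pool.Agent.T2H18.PO.brc_main hf0 hsq hlam r hr _ (hS r)
  have hgood : ∀ (d : ℤ) (P : ℚ[X]), IsGoodFactor f d P →
      Pool.Agent.T2H18.PO.OddFactor f P ∧ ¬ IsSquare ((d : ℤ) : AdjoinRoot P) :=
    fun d P h => ⟨⟨h.1, h.2.1⟩, h.2.2⟩
  refine ⟨fun r hr h1 h3 => ?_, fun r hr h1 h3 => ?_, fun hns hodd => ?_⟩
  · refine dens_of ((key r hr).1 (fun h => ?_) (fun h => ?_))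
    · obtain ⟨P, hP⟩ := h1 h
      exact ⟨P, hgood _ P hP⟩
    · obtain ⟨P, hP⟩ := h3 h
      exact ⟨P, hgood _ P hP⟩
  · refine prime_of ((key r hr).2 (fun h => ?_) (fun h => ?_))
    · obtain ⟨P, hP, hP0⟩ := h1 h
      exact ⟨P, (hgood _ P hP).1, hP0, (hgood _ P hP).2⟩
    · obtain ⟨P, hP, hP0⟩ := h3 h
      exact ⟨P, (hgood _ P hP).1, hP0, (hgood _ P hP).2⟩
  · obtain ⟨P, hP, hP0, hd⟩ := Pool.Agent.T2H18.PO.odd_factor_of_degree hodd
    have h1 : ¬ IsSquare ((lam : ℕ) : ℤ) := by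
      intro h
      exact hns (Int.isSquare_natCast_iff.mp h)
    have h3 : ¬ IsSquare (-(lam : ℤ)) := by
      rintro ⟨x, hx⟩
      have h4 : (1 : ℤ) ≤ lam := by exact_mod_cast hlam
      nlinarith [mul_self_nonneg x]
    have hred : ∀ t : ℕ, (∃ n r : ℕ, f.eval (t : ℤ) = n ∧ IsOrder lam r n) →
        ∃ r ∈ Finset.range 4, ∃ n : ℕ, f.eval (t : ℤ) = n ∧ IsOrder lam r n := by
      rintro t ⟨n, r, h4, v, B, h5, h6⟩
      exact ⟨r, by rw [Finset.mem_range]; omega, n, h4, v, B, h5, h6⟩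
    constructor
    · apply dens_of
      refine squeeze_zero (fun N => by positivity) (fun N => ?_)
        (Pool.Agent.T2H18.PO.tendsto_exists (Finset.range 4)
          (fun r t => ∃ n : ℕ, f.eval (t : ℤ) = n ∧ IsOrder lam r n) fun r hr => ?_)
      · apply div_le_div_of_nonneg_right _ (Nat.cast_nonneg _)
        exact_mod_cast Pool.Agent.H771R2.Dens.cnt_mono hred N
      · rw [Finset.mem_range] at hr
        exact (key r hr).1 (fun _ => ⟨P, hP, hd _ h1⟩) (fun _ => ⟨P, hP, hd _ h3⟩)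
    · intro hf
      apply prime_of
      refine Pool.Agent.T2H18.PO.PZ.mono (fun t _ ht => hred t ht)
        (Pool.Agent.T2H18.PO.PZ.exists (Finset.range 4) fun r hr => ?_)
      rw [Finset.mem_range] at hr
      exact (key r hr).2 (fun _ => ⟨P, hP, hP0 hf, hd _ h1⟩) (fun _ => ⟨P, hP, hP0 hf, hd _ h3⟩)

end Pool.Agent.Results.MP_c38931_co.PolynomialOrdersBRC
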